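import Pool.Agent.helper65.GD.SpecF

set_option autoImplicit false

namespace Pool.Agent.GD

open Finset Metric Filter Topology

theorem XEM_rec (s : ℂ) (β a : ℕ → ℂ) (h : Rec s β a) (n : ℕ) :
    (n : ℂ) * a n = s * cv (fun m => if m = 0 then 0 else β m) a n := by
  rw [h.2 n]
  unfold cv
  rw [Finset.sum_range_succ, Nat.sub_self]
  dsimp only
  rw [if_pos rfl, zero_mul, add_zero]
  refine congrArg (fun y => s * y) (Finset.sum_congr rfl fun r hr => ?_)
  have h1 := mem_range.1 hr
  rw [if_neg (by omega)]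

theorem XEM_rec' (s : ℂ) (β a : ℕ → ℂ) (h0 : a 0 = 1)
    (h : ∀ n : ℕ, (n : ℂ) * a n = s * cv (fun m => if m = 0 then 0 else β m) a n) : Rec s β a := by
  refine ⟨h0, fun n => ?_⟩
  rw [h n]
  unfold cv
  rw [Finset.sum_range_succ, Nat.sub_self]
  dsimp only
  rw [if_pos rfl, zero_mul, add_zero]
  refine congrArg (fun y => s * y) (Finset.sum_congr rfl fun r hr => ?_)
  have h1 := mem_range.1 hr
  rw [if_neg (by omega)]

theorem XEM_der (a b : ℕ → ℂ) (n : ℕ) :
    (n : ℂ) * cv a b n = cv (fun m => (m : ℂ) * a m) b n + cv a (fun m => (m : ℂ) * b m) n := by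
  unfold cv
  rw [Finset.mul_sum, ← Finset.sum_add_distrib]
  refine Finset.sum_congr rfl fun r hr => ?_
  have h1 : r ≤ n := Nat.lt_succ_iff.1 (mem_range.1 hr)
  have h2 : ((n - r : ℕ) : ℂ) = (n : ℂ) - r := by rw [Nat.cast_sub h1]
  dsimp only
  rw [h2]
  ring

theorem XEM_smul (s : ℂ) (a b : ℕ → ℂ) (n : ℕ) : cv (fun m => s * a m) b n = s * cv a b n := by
  unfold cv
  rw [Finset.mul_sum]
  refine Finset.sum_congr rfl fun r _ => ?_
  ring

theorem XEM : XEM_stmt := by
  refine ⟨fun s t β n => ?_, fun β n => ?_⟩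
  · refine congrFun (ex_uni (s + t) β (cv (ex s β) (ex t β)) (XEM_rec' _ _ _ ?_ fun m => ?_)) n
    · unfold cv
      rw [Finset.sum_range_succ, Finset.sum_range_zero, Nat.sub_self, ex_zero, ex_zero]
      ring
    · set b' : ℕ → ℂ := fun m => if m = 0 then 0 else β m with hb'
      have e1 : (fun m : ℕ => (m : ℂ) * ex s β m) = fun m => s * cv b' (ex s β) m :=
        funext fun m => XEM_rec s β _ (ex_rec s β) m
      have e2 : (fun m : ℕ => (m : ℂ) * ex t β m) = fun m => t * cv b' (ex t β) m :=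
        funext fun m => XEM_rec t β _ (ex_rec t β) m
      rw [XEM_der, e1, e2, XEM_smul, cv_comm (ex s β) (fun m => t * cv b' (ex t β) m), XEM_smul,
        cv_assoc, cv_assoc]
      have e3 : cv (ex t β) (ex s β) = cv (ex s β) (ex t β) := funext fun m => cv_comm _ _ _
      rw [e3]
      ring
  · refine (congrFun (ex_uni 0 β dl (XEM_rec' _ _ _ ?_ fun m => ?_)) n).symm
    · unfold dl
      rw [if_pos rfl]
    · rw [zero_mul]
      unfold dl
      by_cases hm : m = 0
      · rw [hm]
        simp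
      · rw [if_neg hm, mul_zero]

end Pool.Agent.GD
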