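import Pool.Agent.helper65.GD.SpecF

set_option autoImplicit false

namespace Pool.Agent.GD

open Finset Metric Filter Topology

theorem XLB_sq {N : ℕ} (w : Fin N → ℝ) (x : Fin N → ℂ) (hA : Atomic N w x) :
    ∑ l, w l * ‖x l - 2 * mom w x 1‖ ^ 2 = 1 := by
  obtain ⟨hw, hs, hx⟩ := hA
  set b : ℂ := mom w x 1 with hb
  have hb1 : b = ∑ l, (w l : ℂ) * x l := by
    rw [hb]; unfold mom; simp only [pow_one]
  have hre : ∑ l, w l * (x l).re = b.re := by
    rw [hb1, Complex.re_sum]
    refine Finset.sum_congr rfl fun l _ => ?_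
    simp only [Complex.mul_re, Complex.ofReal_re, Complex.ofReal_im, zero_mul, sub_zero]
  have him : ∑ l, w l * (x l).im = b.im := by
    rw [hb1, Complex.im_sum]
    refine Finset.sum_congr rfl fun l _ => ?_
    simp only [Complex.mul_im, Complex.ofReal_re, Complex.ofReal_im, zero_mul, add_zero]
  have h1 : ∀ l, w l * ‖x l - 2 * b‖ ^ 2 =
      w l - 4 * b.re * (w l * (x l).re) - 4 * b.im * (w l * (x l).im) + 4 * (b.re ^ 2 + b.im ^ 2) * w l := by
    intro l
    have h2 : ‖x l‖ ^ 2 = 1 := by rw [hx l]; norm_num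
    rw [← Complex.normSq_eq_norm_sq, Complex.normSq_apply] at h2
    rw [← Complex.normSq_eq_norm_sq, Complex.normSq_apply]
    have e1 : (x l - 2 * b).re = (x l).re - 2 * b.re := by
      simp [Complex.sub_re, Complex.mul_re]
    have e2 : (x l - 2 * b).im = (x l).im - 2 * b.im := by
      simp [Complex.sub_im, Complex.mul_im]
    rw [e1, e2]
    linear_combination w l * h2
  rw [Finset.sum_congr rfl fun l _ => h1 l, Finset.sum_add_distrib, Finset.sum_sub_distrib,
    Finset.sum_sub_distrib, ← Finset.mul_sum, ← Finset.mul_sum, ← Finset.mul_sum, hs, hre, him]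
  ring

theorem XLB : XLB_stmt := by
  intro N w x m hA
  have hsq := XLB_sq w x hA
  obtain ⟨hw, hs, hx⟩ := hA
  set b : ℂ := mom w x 1 with hb
  have h1 : mom w x (m + 1) - 2 * b * mom w x m = ∑ l, (w l : ℂ) * ((x l - 2 * b) * x l ^ m) := by
    unfold mom
    rw [Finset.mul_sum, ← Finset.sum_sub_distrib]
    refine Finset.sum_congr rfl fun l _ => ?_
    ring
  rw [h1]
  have h2 : ‖∑ l, (w l : ℂ) * ((x l - 2 * b) * x l ^ m)‖ ≤ ∑ l, w l * ‖x l - 2 * b‖ := by
    refine (norm_sum_le _ _).trans (Finset.sum_le_sum fun l _ => ?_)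
    rw [norm_mul, norm_mul, norm_pow, hx l, one_pow, mul_one, Complex.norm_real, Real.norm_eq_abs,
      abs_of_nonneg (hw l)]
  refine h2.trans ?_
  have h3 : 2 * ∑ l, w l * ‖x l - 2 * b‖ ≤ ∑ l, (w l + w l * ‖x l - 2 * b‖ ^ 2) := by
    rw [Finset.mul_sum]
    refine Finset.sum_le_sum fun l _ => ?_
    nlinarith [mul_nonneg (hw l) (sq_nonneg (‖x l - 2 * b‖ - 1))]
  rw [Finset.sum_add_distrib, hs, hsq] at h3
  linarith

end Pool.Agent.GD
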