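import Pool.Agent.helper65.GD.SpecF

set_option autoImplicit false

namespace Pool.Agent.GD

open Finset Metric Filter Topology

theorem XT2 (h1 : XT1_stmt) : XT2_stmt := by
  intro N w x y hA hy
  obtain ⟨hw, hs, hx⟩ := hA
  have h2 : ∀ l : Fin N, ∃ θ : ℝ, ∀ z ∈ ball (0 : ℂ) 1,
      |(Complex.log (1 - x l * z) - Complex.log (1 - y * z)).im - θ| < Real.pi / 2 :=
    fun l => h1 (x l) y (hx l) hy
  choose θ hθ using h2
  refine ⟨∑ l, w l * θ l, fun z hz => ?_⟩
  unfold TF
  rw [← Complex.exp_add, Complex.exp_re]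
  refine mul_pos (Real.exp_pos _) ?_
  have him : (-(((∑ l, w l * θ l : ℝ) : ℂ) * Complex.I) +
      ∑ l, (w l : ℂ) * (Complex.log (1 - x l * z) - Complex.log (1 - y * z))).im =
      ∑ l, w l * ((Complex.log (1 - x l * z) - Complex.log (1 - y * z)).im - θ l) := by
    have e1 : (-(((∑ l, w l * θ l : ℝ) : ℂ) * Complex.I)).im = - ∑ l, w l * θ l := by
      simp only [Complex.neg_im, Complex.mul_im, Complex.ofReal_re, Complex.ofReal_im, Complex.I_re,
        Complex.I_im, mul_zero, mul_one, zero_mul, add_zero]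
    have e2 : (∑ l, (w l : ℂ) * (Complex.log (1 - x l * z) - Complex.log (1 - y * z))).im =
        ∑ l, w l * (Complex.log (1 - x l * z) - Complex.log (1 - y * z)).im := by
      rw [Complex.im_sum]
      refine Finset.sum_congr rfl fun l _ => ?_
      simp only [Complex.mul_im, Complex.ofReal_re, Complex.ofReal_im, zero_mul, add_zero]
    rw [Complex.add_im, e1, e2, neg_add_eq_sub, ← Finset.sum_sub_distrib]
    refine Finset.sum_congr rfl fun l _ => ?_
    ring
  rw [him]
  have hlt : |∑ l, w l * ((Complex.log (1 - x l * z) - Complex.log (1 - y * z)).im - θ l)| < Real.pi / 2 := by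
    have hpos : ∃ l ∈ (Finset.univ : Finset (Fin N)), 0 < w l := by
      by_contra hc
      have hc2 : ∀ l ∈ (Finset.univ : Finset (Fin N)), w l = 0 := by
        intro l hl
        by_contra h0
        exact hc ⟨l, hl, lt_of_le_of_ne (hw l) (Ne.symm h0)⟩
      rw [Finset.sum_eq_zero hc2] at hs
      exact zero_ne_one hs
    calc |∑ l, w l * ((Complex.log (1 - x l * z) - Complex.log (1 - y * z)).im - θ l)|
        ≤ ∑ l, |w l * ((Complex.log (1 - x l * z) - Complex.log (1 - y * z)).im - θ l)| :=
          Finset.abs_sum_le_sum_abs _ _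
      _ < ∑ l, w l * (Real.pi / 2) := by
          refine Finset.sum_lt_sum (fun l _ => ?_) ?_
          · rw [abs_mul, abs_of_nonneg (hw l)]
            exact mul_le_mul_of_nonneg_left (hθ l z hz).le (hw l)
          · obtain ⟨l, hl, hl0⟩ := hpos
            refine ⟨l, hl, ?_⟩
            rw [abs_mul, abs_of_nonneg (hw l)]
            exact mul_lt_mul_of_pos_left (hθ l z hz) hl0
      _ = Real.pi / 2 := by rw [← Finset.sum_mul, hs, one_mul]
  have h3 := abs_lt.1 hlt
  exact Real.cos_pos_of_mem_Ioo ⟨by linarith [h3.1], h3.2⟩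

end Pool.Agent.GD
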